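import Pool.Agent.FUR.Stmts

/-!
Row FIN of the squad FUR: assembly of the theorem.
-/

set_option autoImplicit false

open Finset

namespace Pool.Agent.FUR.H77

theorem LC_mono {N : ℕ} {f : BF N} {s t : ℕ} (h : LC f s) (hst : s ≤ t) : LC f t := by
  obtain ⟨F, h1, h2⟩ := h
  exact ⟨F, h1, h2.trans hst⟩

/-- the parameters, for `ε ≤ 1` -/
theorem fin1 (hMOM : MOMStmt) (hGRS : GRSStmt) (hDLT : DLTStmt) (hEXT : EXTStmt) (hPFM : PFMStmt)
    (hSZQ : SZQStmt) (hFLS : FLSStmt) (hNUM : NUMStmt) (ε : ℝ) (hε : 0 < ε) (hε1 : ε ≤ 1) (c : ℕ) :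
    ∃ N₀ : ℕ, ∀ n : ℕ, N₀ ≤ n →
      (QPar n).Closed ∧ ¬ (QPar n).IsTrue ∧ n ≤ (QPar n).size ∧ (QPar n).size ≤ 34 * n ∧
      1 ≤ (QPar n).size ∧
      ∀ R : Set Rule, (∀ r ∈ R, r.Sound) → ∀ (s : ℕ) (Λ : List PF) (k : ℕ),
        (s : ℝ) ≤ ((QPar n).size : ℝ) ^ ((3 : ℝ) / 2 - ε) → Ref (QPar n) R s Λ k →
        PF.cst false ∈ Λ → (QPar n).size ^ c ≤ k := by
  obtain ⟨q, m, hq, hqm, h3, hN⟩ := hNUM ε hε hε1 c
  obtain ⟨C, hC, hM⟩ := hMOM q (ε / 3) (by positivity)
  obtain ⟨N₀, hN₀⟩ := hN C hC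
  refine ⟨max N₀ 1, fun n hn => ?_⟩
  have hn1 : 1 ≤ n := (le_max_right _ _).trans hn
  obtain ⟨hmn, hnum⟩ := hN₀ n ((le_max_left _ _).trans hn)
  obtain ⟨hsz, hcl⟩ := hSZQ n hn1
  refine ⟨hcl, hFLS n hn1, by omega, by omega, by omega, ?_⟩
  intro R hR s Λ k hs hΛ hbot
  by_contra hcon
  have hlt : k < (QPar n).size ^ c := not_le.mp hcon
  have hsz34 : ((QPar n).size : ℝ) ≤ 34 * (n : ℝ) := by
    have : (QPar n).size ≤ 34 * n := by omega
    exact_mod_cast this
  have hs' : (s : ℝ) ≤ (34 * (n : ℝ)) ^ ((3 : ℝ) / 2 - ε) :=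
    hs.trans (Real.rpow_le_rpow (by positivity) hsz34 (by linarith))
  have hk' : (k : ℝ) ≤ (34 * (n : ℝ)) ^ c := by
    have h1 : (k : ℝ) ≤ ((QPar n).size : ℝ) ^ c := by exact_mod_cast hlt.le
    exact h1.trans (pow_le_pow_left₀ (by positivity) hsz34 c)
  obtain ⟨L, B, hLB, hlist⟩ := hEXT n hn1 R hR s Λ k hΛ hbot
  -- the functions
  let T0 : Fin k → BF n := fun j x => (L j).eval (asg x false)
  let T1 : Fin k → BF n := fun j x => (L j).eval (asg x true)
  let B' : Fin k → BF n := fun j x => (B j).eval (asg x false)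
  let F : Fin (3 * k) → BF n := fun i =>
    if (finProdFinEquiv.symm i).1 = 0 then T0 (finProdFinEquiv.symm i).2
    else if (finProdFinEquiv.symm i).1 = 1 then T1 (finProdFinEquiv.symm i).2
    else B' (finProdFinEquiv.symm i).2
  have hLC : ∀ i, LC (F i) s := by
    intro i
    show LC (if (finProdFinEquiv.symm i).1 = 0 then T0 (finProdFinEquiv.symm i).2
      else if (finProdFinEquiv.symm i).1 = 1 then T1 (finProdFinEquiv.symm i).2
      else B' (finProdFinEquiv.symm i).2) s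
    split_ifs
    · exact LC_mono (hPFM n _ _) (hLB _).1
    · exact LC_mono (hPFM n _ _) (hLB _).1
    · exact LC_mono (hPFM n _ _) (hLB _).2
  have hne : (univ : Finset (Fin n)).Nonempty := ⟨⟨0, hn1⟩, mem_univ _⟩
  have hbd : ∀ i, (Mq q (F i) : ℝ) ≤
      2 ^ n * C * ((n : ℝ) ^ (ε / 3) * (s : ℝ) ^ ((2 : ℝ) / 3)) ^ q := by
    intro i
    have h := hM n (F i) univ s hne (fun v _ => mem_univ v) (hLC i)
    rwa [card_univ, Fintype.card_fin] at h
  have hgrs : 2 ^ m * m.choose q * ∑ j, Mq q (F j) < 2 ^ n * n.choose q := by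
    have h1 : ((2 ^ m * m.choose q * ∑ j, Mq q (F j) : ℕ) : ℝ) < ((2 ^ n * n.choose q : ℕ) : ℝ) := by
      push_cast
      refine lt_of_le_of_lt (mul_le_mul_of_nonneg_left ?_ (by positivity)) (hnum s k hs' hk')
      calc (∑ j, (Mq q (F j) : ℝ))
          ≤ ∑ _j : Fin (3 * k), 2 ^ n * C * ((n : ℝ) ^ (ε / 3) * (s : ℝ) ^ ((2 : ℝ) / 3)) ^ q :=
            sum_le_sum fun i _ => hbd i
        _ = (3 * k) * (2 ^ n * C * ((n : ℝ) ^ (ε / 3) * (s : ℝ) ^ ((2 : ℝ) / 3)) ^ q) := by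
            rw [sum_const, card_univ, Fintype.card_fin, nsmul_eq_mul]
            push_cast
            rfl
    exact_mod_cast h1
  obtain ⟨K, ρ, hK, hsens⟩ := hGRS n m q (3 * k) F hmn hqm hgrs
  refine hDLT n m (q - 1) k T0 T1 B' K ρ hK h3 ?_ ?_ ?_ ?_
  · intro j x
    have h := hsens (finProdFinEquiv (0, j)) x
    have hF : F (finProdFinEquiv (0, j)) = T0 j := by
      show (if (finProdFinEquiv.symm (finProdFinEquiv ((0 : Fin 3), j))).1 = 0 then
        T0 (finProdFinEquiv.symm (finProdFinEquiv ((0 : Fin 3), j))).2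
        else if (finProdFinEquiv.symm (finProdFinEquiv ((0 : Fin 3), j))).1 = 1 then
          T1 (finProdFinEquiv.symm (finProdFinEquiv ((0 : Fin 3), j))).2
        else B' (finProdFinEquiv.symm (finProdFinEquiv ((0 : Fin 3), j))).2) = _
      rw [Equiv.symm_apply_apply, if_pos rfl]
    rw [hF] at h
    omega
  · intro j x
    have h := hsens (finProdFinEquiv (1, j)) x
    have hF : F (finProdFinEquiv (1, j)) = T1 j := by
      show (if (finProdFinEquiv.symm (finProdFinEquiv ((1 : Fin 3), j))).1 = 0 then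
        T0 (finProdFinEquiv.symm (finProdFinEquiv ((1 : Fin 3), j))).2
        else if (finProdFinEquiv.symm (finProdFinEquiv ((1 : Fin 3), j))).1 = 1 then
          T1 (finProdFinEquiv.symm (finProdFinEquiv ((1 : Fin 3), j))).2
        else B' (finProdFinEquiv.symm (finProdFinEquiv ((1 : Fin 3), j))).2) = _
      rw [Equiv.symm_apply_apply]
      show (if (1 : Fin 3) = 0 then T0 j else if (1 : Fin 3) = 1 then T1 j else B' j) = _
      rw [if_neg (by decide), if_pos rfl]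
    rw [hF] at h
    omega
  · intro j x
    have h := hsens (finProdFinEquiv (2, j)) x
    have hF : F (finProdFinEquiv (2, j)) = B' j := by
      show (if (finProdFinEquiv.symm (finProdFinEquiv ((2 : Fin 3), j))).1 = 0 then
        T0 (finProdFinEquiv.symm (finProdFinEquiv ((2 : Fin 3), j))).2
        else if (finProdFinEquiv.symm (finProdFinEquiv ((2 : Fin 3), j))).1 = 1 then
          T1 (finProdFinEquiv.symm (finProdFinEquiv ((2 : Fin 3), j))).2
        else B' (finProdFinEquiv.symm (finProdFinEquiv ((2 : Fin 3), j))).2) = _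
      rw [Equiv.symm_apply_apply]
      show (if (2 : Fin 3) = 0 then T0 j else if (2 : Fin 3) = 1 then T1 j else B' j) = _
      rw [if_neg (by decide), if_neg (by decide)]
    rw [hF] at h
    omega
  · intro x
    obtain ⟨j, h1, h2, h3⟩ := hlist x
    have hval : ∀ i : Fin k, (if B' i x then T1 i x else T0 i x) =
        (L i).eval (asg x ((B i).eval (asg x false))) := by
      intro i
      show (if (B i).eval (asg x false) = true then (L i).eval (asg x true)
        else (L i).eval (asg x false)) = _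
      cases hb : (B i).eval (asg x false) with
      | false => rw [if_neg (by decide)]
      | true => rw [if_pos rfl]
    refine ⟨j, ?_, ?_, h3⟩
    · rw [hval]; exact h1
    · intro i hi
      rw [hval]; exact h2 i hi

theorem fin (hMOM : MOMStmt) (hGRS : GRSStmt) (hDLT : DLTStmt) (hEXT : EXTStmt) (hPFM : PFMStmt)
    (hSZQ : SZQStmt) (hFLS : FLSStmt) (hNUM : NUMStmt) : FINStmt := by
  intro ε hε c
  obtain ⟨N₀, h⟩ := fin1 hMOM hGRS hDLT hEXT hPFM hSZQ hFLS hNUM (min ε 1)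
    (lt_min hε one_pos) (min_le_right _ _) c
  refine ⟨N₀, fun n hn => ?_⟩
  obtain ⟨a1, a2, a3, a4, a5, a6⟩ := h n hn
  refine ⟨a1, a2, a3, a4, ?_⟩
  intro R hR s Λ k hs hΛ hbot
  refine a6 R hR s Λ k (hs.trans ?_) hΛ hbot
  refine Real.rpow_le_rpow_of_exponent_le ?_ ?_
  · exact_mod_cast a5
  · have := min_le_left ε 1
    linarith

end Pool.Agent.FUR.H77
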