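import Pool.Agent.FUR.Stmts

/-!
Row ONB of the squad FUR.
-/

set_option autoImplicit false

open Finset

namespace Pool.Agent.FUR.H77

variable {N : ℕ}

theorem noc_lv {F : Fm (Fin N)} (h : F.noc) : 1 ≤ F.lv := by
  induction F with
  | cst b => exact absurd h (by simp [Fm.noc])
  | lit w c => exact le_refl 1
  | and G H ihG ihH => 
    have := ihG h.1
    show 1 ≤ G.lv + H.lv
    omega
  | or G H ihG ihH => 
    have := ihG h.1
    show 1 ≤ G.lv + H.lv
    omega

theorem cnt_le_lv (F : Fm (Fin N)) (v : Fin N) : F.cnt v ≤ F.lv := by
  induction F with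
  | cst b => exact le_refl 0
  | lit w c =>
    show (if w = v then 1 else 0) ≤ 1
    split_ifs <;> omega
  | and G H ihG ihH =>
    show G.cnt v + H.cnt v ≤ G.lv + H.lv
    omega
  | or G H ihG ihH =>
    show G.cnt v + H.cnt v ≤ G.lv + H.lv
    omega

/-- the property of the family `D` -/
def Good (F : Fm (Fin N)) (v : Fin N) (D : Bool → ℕ) : Prop :=
  (∀ b, F.cnt v ≤ D b ∧ D b ≤ F.lv ∧
    ∃ G : Fm (Fin N), (∀ x, G.ev x = F.ev (Function.update x v b)) ∧ G.lv + D b ≤ F.lv) ∧
  (2 ≤ F.lv → 3 * F.cnt v ≤ D false + D true)

theorem ev_upd {F : Fm (Fin N)} {v : Fin N} (h : F.cnt v = 0) (x : Fin N → Bool) (b : Bool) :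
    F.ev (Function.update x v b) = F.ev x := by
  induction F with
  | cst c => rfl
  | lit w c =>
    have hw : w ≠ v := by
      intro hw
      rw [show (Fm.lit w c).cnt v = if w = v then 1 else 0 from rfl, if_pos hw] at h
      omega
    show (Function.update x v b w == c) = (x w == c)
    rw [Function.update_of_ne hw]
  | and G H ihG ihH =>
    have h' : G.cnt v + H.cnt v = 0 := h
    show (G.ev _ && H.ev _) = (G.ev x && H.ev x)
    rw [ihG (by omega), ihH (by omega)]
  | or G H ihG ihH =>
    have h' : G.cnt v + H.cnt v = 0 := h
    show (G.ev _ || H.ev _) = (G.ev x || H.ev x)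
    rw [ihG (by omega), ihH (by omega)]

/-- a literal of the variable `v` -/
def IsL (F : Fm (Fin N)) (v : Fin N) : Prop := ∃ c, F = Fm.lit v c

theorem lit_lv {F : Fm (Fin N)} (h : F.noc) (h1 : F.lv = 1) : ∃ w c, F = Fm.lit w c := by
  cases F with
  | cst b => exact absurd h (by simp [Fm.noc])
  | lit w c => exact ⟨w, c, rfl⟩
  | and G H =>
    have a := noc_lv h.1
    have b := noc_lv h.2
    have : G.lv + H.lv = 1 := h1
    omega
  | or G H =>
    have a := noc_lv h.1
    have b := noc_lv h.2
    have : G.lv + H.lv = 1 := h1
    omega

/-- if `F` is not a literal of `v`, then the second property holds without the hypothesis -/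
theorem good2 {F : Fm (Fin N)} {v : Fin N} {D : Bool → ℕ} (hn : F.noc) (hD : Good F v D)
    (h : ¬ IsL F v) : 3 * F.cnt v ≤ D false + D true := by
  by_cases h2 : 2 ≤ F.lv
  · exact hD.2 h2
  · have h1 := noc_lv hn
    obtain ⟨w, c, rfl⟩ := lit_lv hn (by omega)
    have hw : w ≠ v := by
      rintro rfl
      exact h ⟨c, rfl⟩
    rw [show (Fm.lit w c).cnt v = if w = v then 1 else 0 from rfl, if_neg hw]
    omega

theorem onb : ONBStmt := by
  intro N F hred hnoc v
  show ∃ D, Good F v D
  induction F with
  | cst b => exact absurd hnoc (by simp [Fm.noc])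
  | lit w c =>
    refine ⟨fun _ => (Fm.lit w c).cnt v, fun b => ⟨le_refl _, cnt_le_lv _ _, ?_⟩, fun h => ?_⟩
    · by_cases hw : w = v
      · refine ⟨Fm.cst (b == c), fun x => ?_, ?_⟩
        · show (b == c) = (Function.update x v b w == c)
          rw [hw, Function.update_self]
        · show 0 + (Fm.lit w c).cnt v ≤ 1
          rw [show (Fm.lit w c).cnt v = if w = v then 1 else 0 from rfl, if_pos hw]
      · refine ⟨Fm.lit w c, fun x => ?_, ?_⟩
        · show (x w == c) = (Function.update x v b w == c)
          rw [Function.update_of_ne hw]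
        · show 1 + (Fm.lit w c).cnt v ≤ 1
          rw [show (Fm.lit w c).cnt v = if w = v then 1 else 0 from rfl, if_neg hw]
    · exact absurd h (by show ¬ (2 ≤ 1); omega)
  | and G H ihG ihH =>
    obtain ⟨rG, rH, hl, hr⟩ := hred
    obtain ⟨nG, nH⟩ := hnoc
    obtain ⟨DG, dG⟩ := ihG rG nG
    obtain ⟨DH, dH⟩ := ihH rH nH
    have lG := noc_lv nG
    have lH := noc_lv nH
    by_cases hG : IsL G v
    · obtain ⟨c, rfl⟩ := hG
      have hH0 : H.cnt v = 0 := hl v c rfl
      have hc : (Fm.and (Fm.lit v c) H).cnt v = 1 := by
        show (if v = v then 1 else 0) + H.cnt v = 1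
        rw [if_pos rfl, hH0]
      have hlv : (Fm.and (Fm.lit v c) H).lv = H.lv + 1 := by
        show 1 + H.lv = H.lv + 1
        omega
      refine ⟨fun b => if b = c then 1 else H.lv + 1, fun b => ?_, fun _ => ?_⟩
      · rw [hc, hlv]
        by_cases hb : b = c
        · simp only [if_pos hb]
          refine ⟨le_refl _, by omega, H, fun x => ?_, le_refl _⟩
          show H.ev x = ((Function.update x v b v == c) && H.ev (Function.update x v b))
          rw [Function.update_self, ev_upd hH0, hb]
          simp
        · simp only [if_neg hb]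
          refine ⟨by omega, le_refl _, Fm.cst false, fun x => ?_, by show 0 + (H.lv + 1) ≤ _; omega⟩
          show false = ((Function.update x v b v == c) && H.ev (Function.update x v b))
          rw [Function.update_self]
          have : (b == c) = false := by simpa using hb
          rw [this, Bool.false_and]
      · rw [hc]
        cases c <;> simp <;> omega
    · by_cases hH : IsL H v
      · obtain ⟨c, rfl⟩ := hH
        have hG0 : G.cnt v = 0 := hr v c rfl
        have hc : (Fm.and G (Fm.lit v c)).cnt v = 1 := by
          show G.cnt v + (if v = v then 1 else 0) = 1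
          rw [if_pos rfl, hG0]
        have hlv : (Fm.and G (Fm.lit v c)).lv = G.lv + 1 := rfl
        refine ⟨fun b => if b = c then 1 else G.lv + 1, fun b => ?_, fun _ => ?_⟩
        · rw [hc, hlv]
          by_cases hb : b = c
          · simp only [if_pos hb]
            refine ⟨le_refl _, by omega, G, fun x => ?_, le_refl _⟩
            show G.ev x = (G.ev (Function.update x v b) && (Function.update x v b v == c))
            rw [Function.update_self, ev_upd hG0, hb]
            simp
          · simp only [if_neg hb]
            refine ⟨by omega, le_refl _, Fm.cst false, fun x => ?_, by show 0 + (G.lv + 1) ≤ _; omega⟩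
            show false = (G.ev (Function.update x v b) && (Function.update x v b v == c))
            rw [Function.update_self]
            have : (b == c) = false := by simpa using hb
            rw [this, Bool.and_false]
        · rw [hc]
          cases c <;> simp <;> omega
      · refine ⟨fun b => DG b + DH b, fun b => ?_, fun _ => ?_⟩
        · obtain ⟨a1, a2, G', a3, a4⟩ := dG.1 b
          obtain ⟨b1, b2, H', b3, b4⟩ := dH.1 b
          refine ⟨Nat.add_le_add a1 b1, Nat.add_le_add a2 b2, Fm.and G' H', fun x => ?_, ?_⟩
          · show (G'.ev x && H'.ev x) = (G.ev _ && H.ev _)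
            rw [a3, b3]
          · show G'.lv + H'.lv + (DG b + DH b) ≤ G.lv + H.lv
            omega
        · have h1 := good2 nG dG hG
          have h2 := good2 nH dH hH
          show 3 * (G.cnt v + H.cnt v) ≤ DG false + DH false + (DG true + DH true)
          omega
  | or G H ihG ihH =>
    obtain ⟨rG, rH, hl, hr⟩ := hred
    obtain ⟨nG, nH⟩ := hnoc
    obtain ⟨DG, dG⟩ := ihG rG nG
    obtain ⟨DH, dH⟩ := ihH rH nH
    have lG := noc_lv nG
    have lH := noc_lv nH
    by_cases hG : IsL G v
    · obtain ⟨c, rfl⟩ := hG
      have hH0 : H.cnt v = 0 := hl v c rfl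
      have hc : (Fm.or (Fm.lit v c) H).cnt v = 1 := by
        show (if v = v then 1 else 0) + H.cnt v = 1
        rw [if_pos rfl, hH0]
      have hlv : (Fm.or (Fm.lit v c) H).lv = H.lv + 1 := by
        show 1 + H.lv = H.lv + 1
        omega
      refine ⟨fun b => if b = c then H.lv + 1 else 1, fun b => ?_, fun _ => ?_⟩
      · rw [hc, hlv]
        by_cases hb : b = c
        · simp only [if_pos hb]
          refine ⟨by omega, le_refl _, Fm.cst true, fun x => ?_, by show 0 + (H.lv + 1) ≤ _; omega⟩
          show true = ((Function.update x v b v == c) || H.ev (Function.update x v b))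
          rw [Function.update_self, hb]
          simp
        · simp only [if_neg hb]
          refine ⟨le_refl _, by omega, H, fun x => ?_, le_refl _⟩
          show H.ev x = ((Function.update x v b v == c) || H.ev (Function.update x v b))
          rw [Function.update_self, ev_upd hH0]
          have : (b == c) = false := by simpa using hb
          rw [this, Bool.false_or]
      · rw [hc]
        cases c <;> simp <;> omega
    · by_cases hH : IsL H v
      · obtain ⟨c, rfl⟩ := hH
        have hG0 : G.cnt v = 0 := hr v c rfl
        have hc : (Fm.or G (Fm.lit v c)).cnt v = 1 := by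
          show G.cnt v + (if v = v then 1 else 0) = 1
          rw [if_pos rfl, hG0]
        have hlv : (Fm.or G (Fm.lit v c)).lv = G.lv + 1 := rfl
        refine ⟨fun b => if b = c then G.lv + 1 else 1, fun b => ?_, fun _ => ?_⟩
        · rw [hc, hlv]
          by_cases hb : b = c
          · simp only [if_pos hb]
            refine ⟨by omega, le_refl _, Fm.cst true, fun x => ?_, by show 0 + (G.lv + 1) ≤ _; omega⟩
            show true = (G.ev (Function.update x v b) || (Function.update x v b v == c))
            rw [Function.update_self, hb]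
            simp
          · simp only [if_neg hb]
            refine ⟨le_refl _, by omega, G, fun x => ?_, le_refl _⟩
            show G.ev x = (G.ev (Function.update x v b) || (Function.update x v b v == c))
            rw [Function.update_self, ev_upd hG0]
            have : (b == c) = false := by simpa using hb
            rw [this, Bool.or_false]
        · rw [hc]
          cases c <;> simp <;> omega
      · refine ⟨fun b => DG b + DH b, fun b => ?_, fun _ => ?_⟩
        · obtain ⟨a1, a2, G', a3, a4⟩ := dG.1 b
          obtain ⟨b1, b2, H', b3, b4⟩ := dH.1 b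
          refine ⟨Nat.add_le_add a1 b1, Nat.add_le_add a2 b2, Fm.or G' H', fun x => ?_, ?_⟩
          · show (G'.ev x || H'.ev x) = (G.ev _ || H.ev _)
            rw [a3, b3]
          · show G'.lv + H'.lv + (DG b + DH b) ≤ G.lv + H.lv
            omega
        · have h1 := good2 nG dG hG
          have h2 := good2 nH dH hH
          show 3 * (G.cnt v + H.cnt v) ≤ DG false + DH false + (DG true + DH true)
          omega

end Pool.Agent.FUR.H77
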