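import Pool.Agent.Helper10_FUR.DEN
import Pool.Agent.Helper10_FUR.RSM
import Pool.Agent.Helper17_FUR.DLT
import Pool.Agent.Helper21_FUR.Avg
import Pool.Agent.Helper21_FUR.Mat
import Pool.Agent.Helper23_FUR.ONE
import Pool.Agent.Helper23_FUR.PAR
import Pool.Agent.Helper27_FUR.SIM
import Pool.Agent.Helper56_FUR.NRM
import Pool.Agent.Helper62_FUR.SEM
import Pool.Agent.Helper62_FUR.SZQ
import Pool.Agent.Helper70_FUR.RPW
import Pool.Agent.Helper76_FUR.GRS
import Pool.Agent.Helper77_FUR.FIN
import Pool.Agent.Helper77_FUR.ONB
import Pool.Agent.Helper88_FUR.Fls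
import Pool.Agent.Helper88_FUR.Pfm
import Pool.Agent.Helper91_FUR.MOM
import Pool.Agent.Helper92_FUR.HVY
import Pool.Agent.Helper92_FUR.NUM
import Pool.Agent.Helper99_FUR.EXT

/-!
# Frege + universal reduction: refutations whose reductions are applied to small formulas

A super-polynomial lower bound for the refutations of the parity formulas
`∃ x_0 … x_{n-1} ∀ z ∃ t_0 … t_{n-1}. (t_0 ↔ x_0) ∧ ⋀_i (t_{i+1} ↔ t_i ⊕ x_{i+1}) ∧ (z ↔ ¬ t_{n-1})`
in Frege + `∀`-reduction, with arbitrary sound schematic rules, in which every `∀`-reduction is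
applied to a formula with at most `|Φ|^(3/2 - ε)` symbols (and substitutes a formula with at most so
many symbols).  All the other formulas of the refutation are arbitrary: neither their size nor their
depth is bounded, and only the number of `∀`-reductions is counted.

The definitions are in `Pool.Agent.FUR.Defs`:

* `PF`: propositional formulas in `∧, ∨, ¬` with constants; `PF.size` number of symbols, `PF.eval`
  truth value, `PF.vars` variables, `PF.sub` substitution, `PF.sub1 φ u B` is `φ[u/B]`;
* `QBF`: closed prenex formula (prefix and list of clauses) with the variables `0, 1, 2, …`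
  quantified in this order; `QBF.Closed`, `QBF.IsTrue`, `QBF.size`, `QBF.Univ`;
* `Rule`: schematic rule, `Rule.Sound`;
* `Ref Φ R s Λ k`: the sequence `Λ` of formulas is a derivation from the clauses of `Φ` with the
  rules `R` and `∀`-reduction, with exactly `k` `∀`-reductions, all of them applied to formulas with at
  most `s` symbols and substituting formulas with at most `s` symbols;
* `QPar n`: the parity formula.
-/

set_option autoImplicit false

namespace Pool.Agent.Helper77_FUR.SmallReductions

open Pool.Agent.FUR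

/-- **Theorem.**  Let `ε > 0` and `c` be fixed.  For all large `n` the parity formula `Φ = QPar n` is a
closed false formula with `n ≤ |Φ| ≤ 34 n`, and for every set `R` of sound schematic rules, every
refutation of `Φ` in Frege + `∀`-reduction (with the rules `R`) in which all `∀`-reductions are applied
to formulas with at most `|Φ|^(3/2 - ε)` symbols, and substitute formulas with at most
`|Φ|^(3/2 - ε)` symbols, contains at least `|Φ|^c` `∀`-reductions. -/
theorem result (ε : ℝ) (hε : 0 < ε) (c : ℕ) : ∃ N₀ : ℕ, ∀ n : ℕ, N₀ ≤ n →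
    (QPar n).Closed ∧ ¬ (QPar n).IsTrue ∧ n ≤ (QPar n).size ∧ (QPar n).size ≤ 34 * n ∧
    ∀ R : Set Rule, (∀ r ∈ R, r.Sound) → ∀ (s : ℕ) (Λ : List PF) (k : ℕ),
      (s : ℝ) ≤ ((QPar n).size : ℝ) ^ ((3 : ℝ) / 2 - ε) → Ref (QPar n) R s Λ k →
      PF.cst false ∈ Λ → (QPar n).size ^ c ≤ k :=
  H77.fin
    (H91.mom (H23.one H56.nrm H77.onb) (H21.avg H10.rsm) (H92.hvy H10.rsm) H70.rpw)
    H76.grs
    (H17.dlt (H27.sim H10.den) H23.parStmt)
    (H99.ext H62.sem H21.mat)
    H88.pfm H62.szq H88.fls H92.num ε hε c

end Pool.Agent.Helper77_FUR.SmallReductions
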